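import Pool.Agent.W536.XI.Stm

/-!
Project XI (MP_023270_nt), task APX: F near iy is an exponential times D.
-/

open Complex MeasureTheory Filter Topology
open W536.XI

namespace Pool.Agent.W11.XI.Apx

lemma L_nonneg (n : ℕ) : 0 ≤ L n := by
  unfold L
  apply Real.log_nonneg
  have : (0:ℝ) ≤ n := Nat.cast_nonneg n
  linarith

lemma exp_neg_L (n : ℕ) (c : ℝ) : Real.exp (-(c * L n)) = ((n:ℝ)+1) ^ (-c) := by
  rw [Real.rpow_def_of_pos (by positivity)]
  unfold L
  ring_nf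

lemma summ : Summable (fun n : ℕ => Real.exp (-(3/2 * L n))) := by
  have h0 : Summable (fun n : ℕ => (n:ℝ) ^ (-(3/2):ℝ)) := Real.summable_nat_rpow.mpr (by norm_num)
  have h := (summable_nat_add_iff 1).mpr h0
  refine h.congr ?_
  intro n
  rw [exp_neg_L]
  push_cast
  rfl

lemma inv_sq (n : ℕ) : 1 / ((n:ℝ)+1)^2 = Real.exp (-(2 * L n)) := by
  have h : Real.exp (L n) = (n:ℝ) + 1 := by
    unfold L
    rw [Real.exp_log (by positivity)]
  rw [Real.exp_neg, show 2 * L n = L n + L n by ring, Real.exp_add, h]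
  rw [one_div, sq]

lemma term_eq (l s hy iy x : ℂ) :
    cexp (-((s + 2*l) * x) - x^2) * (hy * cexp (l * (s + 2*l + 2*x - iy) - l^2)) =
      hy * cexp (l^2 - l*iy) * cexp (l*s) * cexp (-(s*x) - x^2) := by
  calc cexp (-((s + 2*l) * x) - x^2) * (hy * cexp (l * (s + 2*l + 2*x - iy) - l^2))
      = hy * (cexp (-((s + 2*l) * x) - x^2) * cexp (l * (s + 2*l + 2*x - iy) - l^2)) := by ring
    _ = hy * cexp ((l^2 - l*iy) + l*s + (-(s*x) - x^2)) := by
        rw [← Complex.exp_add]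
        congr 2
        ring
    _ = _ := by
        rw [Complex.exp_add, Complex.exp_add]
        ring

lemma norm_w (s : ℂ) (n : ℕ) :
    ‖cexp (-(s * (L n : ℂ)) - (L n : ℂ)^2)‖ = Real.exp (-s.re * L n - L n ^ 2) := by
  rw [Complex.norm_exp]
  congr 1
  have h1 : ((L n : ℂ)^2) = ((L n ^ 2 : ℝ) : ℂ) := by push_cast; ring
  rw [h1, Complex.sub_re, Complex.ofReal_re, Complex.neg_re, Complex.re_mul_ofReal]
  ring

/-- lower bound for the exponential factor -/
lemma norm_E (l s iy hy : ℂ) (lam C1 : ℝ) (_hC1 : 0 ≤ C1) (hlam : 0 ≤ lam) (hl : ‖l‖ ≤ lam)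
    (hs : ‖s - iy‖ ≤ C1 * lam) :
    ‖hy‖ * Real.exp (-((1 + C1) * lam^2)) ≤ ‖hy * cexp (l^2 - l*iy) * cexp (l*s)‖ := by
  have h1 : hy * cexp (l^2 - l*iy) * cexp (l*s) = hy * cexp (l^2 + l * (s - iy)) := by
    rw [mul_assoc, ← Complex.exp_add]
    congr 2
    ring
  rw [h1, norm_mul, Complex.norm_exp]
  apply mul_le_mul_of_nonneg_left _ (norm_nonneg _)
  apply Real.exp_le_exp.mpr
  have h2 : |(l^2 + l*(s - iy)).re| ≤ ‖l^2 + l*(s-iy)‖ := Complex.abs_re_le_norm _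
  have h3 : ‖l^2 + l*(s-iy)‖ ≤ ‖l‖^2 + ‖l‖ * ‖s - iy‖ := by
    refine (norm_add_le _ _).trans ?_
    rw [norm_pow, norm_mul]
  have h4 : ‖l‖^2 ≤ lam^2 := by
    apply pow_le_pow_left₀ (norm_nonneg _) hl
  have h5 : ‖l‖ * ‖s - iy‖ ≤ lam * (C1 * lam) := mul_le_mul hl hs (norm_nonneg _) hlam
  have h6 := neg_abs_le ((l^2 + l*(s - iy)).re)
  nlinarith

theorem apx (h1 : S_GAM) (h2 : S_GASY) (h3 : S_CR) (h4 : S_FREP) (h5 : S_DABS) : S_APX := by
  intro C1o
  obtain ⟨C, y0, hC, hy0, hG⟩ := h1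
  set C1 : ℝ := |C1o| with hC1def
  have hC1 : 0 ≤ C1 := abs_nonneg _
  clear_value C1
  obtain ⟨y1', Kr, hCR⟩ := h3 C (C1 + 2)
  set Z : ℝ := ∑' n : ℕ, Real.exp (-(3/2 * L n)) with hZdef
  have hZ : 1 ≤ Z := by
    have := summ.le_tsum 0 (fun j _ => (Real.exp_pos _).le)
    have h0 : Real.exp (-(3/2 * L 0)) = 1 := by
      unfold L
      simp
    rw [h0] at this
    exact this
  set Kp : ℝ := |Kr| with hKp
  have hKp0 : 0 ≤ Kp := abs_nonneg _
  have hKrKp : Kr ≤ Kp := le_abs_self _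
  set B : ℝ := Real.log (2 * Z) with hB
  have hB0 : 0 ≤ B := Real.log_nonneg (by linarith)
  have hBexp : Real.exp B = 2 * Z := Real.exp_log (by linarith)
  set Cp : ℝ := 2 * (Kp + (1 + C1) + 1 + B + C1 + 2) with hCp
  have hCp0 : 0 ≤ Cp := by positivity
  obtain ⟨y1'', K, hGA⟩ := h2 C (C1 + 2 + 2 * Cp)
  clear_value Kp B Cp
  refine ⟨max (max y0 y1') (max y1'' (Real.exp (1 + 2 * C))), C, K, ?_⟩
  intro y hy
  have hy_a : y0 ≤ y := le_trans (le_trans (le_max_left _ _) (le_max_left _ _)) hy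
  have hy_b : y1' ≤ y := le_trans (le_trans (le_max_right _ _) (le_max_left _ _)) hy
  have hy_c : y1'' ≤ y := le_trans (le_trans (le_max_left _ _) (le_max_right _ _)) hy
  have hy_d : Real.exp (1 + 2 * C) ≤ y := le_trans (le_trans (le_max_right _ _) (le_max_right _ _)) hy
  have hypos : 0 < y := lt_of_lt_of_le (Real.exp_pos _) hy_d
  have hlamC : 1 + 2 * C ≤ Real.log y := by
    rw [Real.le_log_iff_exp_le hypos]
    exact hy_d
  obtain ⟨l, hl⟩ := hG y hy_a
  have hl1 := hl.1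
  have hl2 := hl.2.1
  set lam : ℝ := Real.log y with hlam
  have hlam1 : 1 ≤ lam := by linarith
  have hlam0 : 0 ≤ lam := by linarith
  have hlsq : lam ≤ lam^2 := by nlinarith
  have hnl : ‖l‖ ≤ lam := by
    have e1 : l = (l - (lam / 2 : ℝ)) + ((lam/2 : ℝ) : ℂ) := by ring
    have e2 : ‖((lam/2 : ℝ) : ℂ)‖ = lam / 2 := by
      rw [Complex.norm_real, Real.norm_of_nonneg (by linarith)]
    calc ‖l‖ = ‖(l - (lam / 2 : ℝ)) + ((lam/2 : ℝ) : ℂ)‖ := by rw [← e1]
      _ ≤ ‖l - (lam / 2 : ℝ)‖ + ‖((lam/2 : ℝ) : ℂ)‖ := norm_add_le _ _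
      _ ≤ C + lam / 2 := by rw [e2]; linarith
      _ ≤ lam := by linarith
  have hhne : hh (I * y) ≠ 0 := by
    intro h0
    rw [h0, norm_zero] at hl2
    linarith [Real.exp_pos (-y)]
  refine ⟨l, hh (I*y) * cexp (l^2 - l*(I*y)), mul_ne_zero hhne (Complex.exp_ne_zero _), hl1, ?_⟩
  intro s hs0
  have hC1o : C1o ≤ C1 := by rw [hC1def]; exact le_abs_self _
  have hs : ‖s - I*y‖ ≤ C1 * lam := hs0.trans (mul_le_mul_of_nonneg_right hC1o hlam0)
  set E : ℂ := hh (I*y) * cexp (l^2 - l*(I*y)) * cexp (l*s) with hE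
  have hEn := norm_E l s (I*y) (hh (I*y)) lam C1 hC1 hlam0 hnl hs
  rw [← hE] at hEn
  have hS : ‖(s + 2*l) - I*y‖ ≤ (C1 + 2) * lam := by
    have e1 : (s + 2*l) - I*y = (s - I*y) + 2*l := by ring
    rw [e1]
    refine (norm_add_le _ _).trans ?_
    rw [norm_mul]
    have e2 : ‖(2:ℂ)‖ = 2 := by simp
    rw [e2]
    linarith
  have hsre : |s.re| ≤ C1 * lam := by
    have e1 : (s - I*y).re = s.re := by simp
    rw [← e1]
    exact (Complex.abs_re_le_norm _).trans hs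
  -- per term bound
  have key : ∀ n : ℕ, ‖Tn n (s + 2*l) - E * cexp (-(s * (L n : ℂ)) - (L n : ℂ)^2)‖ ≤
      ‖E‖ * (lam ^ K / y * Real.exp (-s.re * L n - L n ^ 2)) +
      ‖E‖ * (Real.exp (-lam^2) / Z * Real.exp (-(3/2 * L n))) := by
    intro n
    have hLn := L_nonneg n
    have hlamK : 0 ≤ lam ^ K / y := by positivity
    by_cases hn : L n ≤ Cp * lam^2
    · have hd : ‖(s + 2*l + 2 * (L n : ℂ)) - I*y‖ ≤ (C1 + 2 + 2*Cp) * lam^2 := by
        have e1 : (s + 2*l + 2 * (L n : ℂ)) - I*y = (s + 2*l - I*y) + ((2 * L n : ℝ) : ℂ) := by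
          push_cast
          ring
        rw [e1]
        refine (norm_add_le _ _).trans ?_
        rw [Complex.norm_real, Real.norm_of_nonneg (by linarith)]
        have : (C1+2) * lam ≤ (C1+2) * lam^2 := mul_le_mul_of_nonneg_left hlsq (by linarith)
        linarith
      have hg := hGA y hy_c l hl (s + 2*l + 2 * (L n : ℂ)) hd
      have e2 : Tn n (s + 2*l) - E * cexp (-(s * (L n : ℂ)) - (L n : ℂ)^2) =
          cexp (-((s + 2*l) * (L n : ℂ)) - (L n : ℂ)^2) * (G (s + 2*l + 2 * (L n : ℂ)) -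
            hh (I*y) * cexp (l * (s + 2*l + 2 * (L n : ℂ) - I*y) - l^2)) := by
        rw [mul_sub, term_eq]
        rfl
      have e3 : cexp (-((s + 2*l) * (L n : ℂ)) - (L n : ℂ)^2) *
            (hh (I*y) * cexp (l * (s + 2*l + 2 * (L n : ℂ) - I*y) - l^2)) =
          E * cexp (-(s * (L n : ℂ)) - (L n : ℂ)^2) := term_eq _ _ _ _ _
      rw [e2, norm_mul]
      have e4 : ‖cexp (-((s + 2*l) * (L n : ℂ)) - (L n : ℂ)^2)‖ *
            ‖hh (I*y) * cexp (l * (s + 2*l + 2 * (L n : ℂ) - I*y) - l^2)‖ =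
          ‖E‖ * Real.exp (-s.re * L n - L n ^ 2) := by
        rw [← norm_mul, e3, norm_mul, norm_w]
      have h6 : ‖cexp (-((s + 2*l) * (L n : ℂ)) - (L n : ℂ)^2)‖ *
          ‖G (s + 2*l + 2 * (L n : ℂ)) -
            hh (I*y) * cexp (l * (s + 2*l + 2 * (L n : ℂ) - I*y) - l^2)‖ ≤
          ‖cexp (-((s + 2*l) * (L n : ℂ)) - (L n : ℂ)^2)‖ * (lam ^ K / y *
            ‖hh (I*y) * cexp (l * (s + 2*l + 2 * (L n : ℂ) - I*y) - l^2)‖) :=
        mul_le_mul_of_nonneg_left hg (norm_nonneg _)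
      have h7 : ‖cexp (-((s + 2*l) * (L n : ℂ)) - (L n : ℂ)^2)‖ * (lam ^ K / y *
            ‖hh (I*y) * cexp (l * (s + 2*l + 2 * (L n : ℂ) - I*y) - l^2)‖) =
          ‖E‖ * (lam ^ K / y * Real.exp (-s.re * L n - L n ^ 2)) := by
        calc _ = lam ^ K / y * (‖cexp (-((s + 2*l) * (L n : ℂ)) - (L n : ℂ)^2)‖ *
            ‖hh (I*y) * cexp (l * (s + 2*l + 2 * (L n : ℂ) - I*y) - l^2)‖) := by ring
          _ = _ := by rw [e4]; ring
      rw [h7] at h6
      have h8 : 0 ≤ ‖E‖ * (Real.exp (-lam^2) / Z * Real.exp (-(3/2 * L n))) := by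
        have : 0 < Z := by linarith
        positivity
      linarith
    · push Not at hn
      have hX : Cp * lam^2 ≤ L n := hn.le
      have hlam2 : 1 ≤ lam^2 := by nlinarith
      have hZpos : 0 < Z := by linarith
      have hexpZ : Real.exp (-lam^2) / Z = 2 * Real.exp (-lam^2 - B) := by
        rw [Real.exp_sub, hBexp]
        field_simp
      -- T bound
      have hT := hCR y hy_b l hl (s + 2*l) hS n
      have hT2 : ‖Tn n (s + 2*l)‖ ≤ ‖E‖ * (Real.exp (-lam^2 - B) * Real.exp (-(3/2 * L n))) := by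
        refine hT.trans ?_
        have e1 : ‖hh (I*y)‖ * Real.exp (Kr * lam^2) / ((n:ℝ)+1)^2 =
            (‖hh (I*y)‖ * Real.exp (-((1 + C1) * lam^2))) *
              (Real.exp ((1+C1) * lam^2 + Kr * lam^2 - 2 * L n)) := by
          rw [div_eq_mul_one_div, inv_sq, mul_assoc, mul_assoc, ← Real.exp_add, ← Real.exp_add]
          congr 2
          ring
        rw [e1]
        apply mul_le_mul hEn _ (Real.exp_pos _).le (norm_nonneg _)
        rw [← Real.exp_add]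
        apply Real.exp_le_exp.mpr
        have a1 : Kr * lam^2 ≤ Kp * lam^2 := mul_le_mul_of_nonneg_right hKrKp (by positivity)
        have a2 : B ≤ B * lam^2 := le_mul_of_one_le_right hB0 hlam2
        have a3 : Cp * lam^2 = 2 * (Kp * lam^2 + (1+C1) * lam^2 + lam^2 + B * lam^2 + C1 * lam^2 + 2 * lam^2) := by
          rw [hCp]; ring
        have a4 : 0 ≤ C1 * lam^2 := by positivity
        nlinarith
      have hW2 : Real.exp (-s.re * L n - L n ^ 2) ≤
          Real.exp (-lam^2 - B) * Real.exp (-(3/2 * L n)) := by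
        rw [← Real.exp_add]
        apply Real.exp_le_exp.mpr
        have b1 : -s.re ≤ C1 * lam := (neg_le_abs _).trans hsre
        have b2 : C1 * lam ≤ C1 * lam^2 := mul_le_mul_of_nonneg_left hlsq hC1
        have a2 : B ≤ B * lam^2 := le_mul_of_one_le_right hB0 hlam2
        have a3 : Cp * lam^2 = 2 * (Kp * lam^2 + (1+C1) * lam^2 + lam^2 + B * lam^2 + C1 * lam^2 + 2 * lam^2) := by
          rw [hCp]; ring
        have a4 : 0 ≤ C1 * lam^2 := by positivity
        have a5 : 0 ≤ Kp * lam^2 := by positivity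
        have a6 : 0 ≤ B * lam^2 := by positivity
        have b3 : -s.re - L n ≤ -2 := by nlinarith
        have b4 : L n * (-s.re - L n) ≤ L n * (-2) := mul_le_mul_of_nonneg_left b3 hLn
        have b5 : -s.re * L n - L n^2 = L n * (-s.re - L n) := by ring
        rw [b5]
        nlinarith
      calc ‖Tn n (s + 2*l) - E * cexp (-(s * (L n : ℂ)) - (L n : ℂ)^2)‖
          ≤ ‖Tn n (s + 2*l)‖ + ‖E * cexp (-(s * (L n : ℂ)) - (L n : ℂ)^2)‖ := norm_sub_le _ _
        _ ≤ ‖E‖ * (Real.exp (-lam^2 - B) * Real.exp (-(3/2 * L n))) +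
            ‖E‖ * (Real.exp (-lam^2 - B) * Real.exp (-(3/2 * L n))) := by
            apply add_le_add hT2
            rw [norm_mul, norm_w]
            exact mul_le_mul_of_nonneg_left hW2 (norm_nonneg _)
        _ = ‖E‖ * (Real.exp (-lam^2) / Z * Real.exp (-(3/2 * L n))) := by
            rw [hexpZ]; ring
        _ ≤ _ := by
            have : 0 ≤ ‖E‖ * (lam ^ K / y * Real.exp (-s.re * L n - L n ^ 2)) := by positivity
            linarith
  -- summation
  have hsum1 : Summable (fun n : ℕ => Real.exp (-s.re * L n - L n ^ 2)) := h5.1 (-s.re)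
  have hsumT : Summable (fun n => Tn n (s + 2*l)) := ((h4.1 (s + 2*l)).1).of_norm
  have hsumW : Summable (fun n : ℕ => cexp (-(s * (L n : ℂ)) - (L n : ℂ)^2)) := by
    apply Summable.of_norm
    refine hsum1.congr ?_
    intro n
    rw [norm_w]
  have hFD : F (s + 2*l) - E * D s =
      ∑' n, (Tn n (s + 2*l) - E * cexp (-(s * (L n : ℂ)) - (L n : ℂ)^2)) := by
    rw [hsumT.tsum_sub (hsumW.mul_left E), (h4.1 (s + 2*l)).2, tsum_mul_left]
    rfl
  have hB1 : Summable (fun n : ℕ => ‖E‖ * (lam ^ K / y * Real.exp (-s.re * L n - L n ^ 2))) :=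
    (hsum1.mul_left _).mul_left _
  have hB2 : Summable (fun n : ℕ => ‖E‖ * (Real.exp (-lam^2) / Z * Real.exp (-(3/2 * L n)))) :=
    (summ.mul_left _).mul_left _
  have hZpos : 0 < Z := by linarith
  calc ‖F (s + 2*l) - E * D s‖
      = ‖∑' n, (Tn n (s + 2*l) - E * cexp (-(s * (L n : ℂ)) - (L n : ℂ)^2))‖ := by rw [hFD]
    _ ≤ ∑' n : ℕ, (‖E‖ * (lam ^ K / y * Real.exp (-s.re * L n - L n ^ 2)) +
      ‖E‖ * (Real.exp (-lam^2) / Z * Real.exp (-(3/2 * L n)))) :=
        tsum_of_norm_bounded (hB1.add hB2).hasSum key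
    _ = ‖E‖ * (lam ^ K / y * Dabs (-s.re)) + ‖E‖ * (Real.exp (-lam^2) / Z * Z) := by
        rw [hB1.tsum_add hB2, tsum_mul_left, tsum_mul_left, tsum_mul_left, tsum_mul_left]
        rfl
    _ = ‖E‖ * (lam ^ K / y * Dabs (-s.re) + Real.exp (-lam^2)) := by
        field_simp
    _ = _ := by
        rfl

end Pool.Agent.W11.XI.Apx
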